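import Pool.Agent.Helper55.CF.Goals

open Submodule

namespace CF55.H70

lemma exists_not_mem_span {K : Submodule ℂ V} {n : ℕ} (hn : n < Module.finrank ℂ K)
    (s : Finset V) (hs : s.card ≤ n) : ∃ z ∈ K, z ∉ span ℂ (s : Set V) := by
  by_contra hcon
  push Not at hcon
  have h1 : K ≤ span ℂ (s : Set V) := fun z hz => hcon z hz
  have h2 := Submodule.finrank_mono h1
  have h3 : Module.finrank ℂ (span ℂ (s : Set V)) ≤ s.card :=
    finrank_span_finset_le_card (R := ℂ) s
  omega

lemma exists_dual (y₁ y₂ : V →ₗ[ℂ] ℂ) (h : LinearIndependent ℂ ![y₁, y₂]) :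
    ∃ f : V, y₁ f = 1 ∧ y₂ f = 0 := by
  by_contra hcon
  push Not at hcon
  have h1 : (⨅ i : Fin 1, LinearMap.ker ((fun _ => y₂ : Fin 1 → (V →ₗ[ℂ] ℂ)) i)) ≤
      LinearMap.ker y₁ := by
    intro v hv
    rw [Submodule.mem_iInf] at hv
    have hv2 : y₂ v = 0 := hv 0
    rw [LinearMap.mem_ker]
    by_contra hne
    apply hcon ((y₁ v)⁻¹ • v)
    · rw [map_smul, smul_eq_mul, inv_mul_cancel₀ hne]
    · rw [map_smul, hv2, smul_zero]
  have h2 := mem_span_of_iInf_ker_le_ker h1
  rw [Set.range_const, mem_span_singleton] at h2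
  obtain ⟨c, hc⟩ := h2
  rw [LinearIndependent.pair_iff] at h
  have := h 1 (-c) (by rw [← hc]; simp)
  exact one_ne_zero this.1

lemma finrank_W (y₁ y₂ : V →ₗ[ℂ] ℂ) :
    4 ≤ Module.finrank ℂ ↥(LinearMap.ker y₁ ⊓ LinearMap.ker y₂) := by
  have h1 := LinearMap.finrank_range_add_finrank_ker (y₁.prod y₂)
  rw [LinearMap.ker_prod] at h1
  have h2 := Submodule.finrank_le (LinearMap.range (y₁.prod y₂))
  rw [Module.finrank_prod, Module.finrank_self] at h2
  rw [Module.finrank_fin_fun] at h1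
  omega

def wt : Fin 6 → ℕ := ![0, 12, 12, 6, 8, 9]

lemma wt0 : ∀ b c : Fin 6, ¬ (24 ≤ wt 0 + wt b + wt c) → (b ≠ 1 ∧ b ≠ 2) ∨ (c ≠ 1 ∧ c ≠ 2) := by
  decide

lemma wt1 : ∀ a b c : Fin 6, a ≠ 0 → a ≤ b → b ≤ c → ¬ (24 ≤ wt a + wt b + wt c) →
    a = 3 ∧ (b = 3 ∨ b = 4) ∧ c ≠ 1 ∧ c ≠ 2 := by
  decide

end CF55.H70

open CF55.H70 in
theorem CF55.stmtR2 : CF55.G_R2 := by
  intro T hT hpat
  obtain ⟨P, hP0, hPP, y₁, y₂, hy, hq, K₂, K₁, hPK, hK21, hKW, hr2, hr1, hK⟩ := hpat
  classical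
  obtain ⟨f₁, hf11, hf12⟩ := exists_dual y₁ y₂ hy
  obtain ⟨f₂, hf22, hf21⟩ := exists_dual y₂ y₁ (by
    rw [LinearIndependent.pair_iff] at hy ⊢
    intro s t hst
    have := hy t s (by rw [add_comm]; exact hst)
    exact ⟨this.2, this.1⟩)
  obtain ⟨z₁, hz₁, hz₁'⟩ := exists_not_mem_span (K := K₂) (n := 1) (by omega) {P} (by simp)
  obtain ⟨z₂, hz₂, hz₂'⟩ := exists_not_mem_span (K := K₁) (n := 2) (by omega) {P, z₁}
    Finset.card_le_two
  obtain ⟨z₃, hz₃, hz₃'⟩ := exists_not_mem_span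
    (K := LinearMap.ker y₁ ⊓ LinearMap.ker y₂) (n := 3) (by have := finrank_W y₁ y₂; omega)
    {P, z₁, z₂} Finset.card_le_three
  have hPW : P ∈ LinearMap.ker y₁ ⊓ LinearMap.ker y₂ := hKW (hK21 hPK)
  have hz₁W : z₁ ∈ LinearMap.ker y₁ ⊓ LinearMap.ker y₂ := hKW (hK21 hz₁)
  have hz₂W : z₂ ∈ LinearMap.ker y₁ ⊓ LinearMap.ker y₂ := hKW hz₂
  -- polarisation
  have hpol : ∀ v v', 2 * T P v v' = y₁ v * y₂ v' + y₁ v' * y₂ v := by
    intro v v'
    have h1 := hq (v + v')
    simp only [map_add, LinearMap.add_apply] at h1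
    rw [hT.s23 P v' v, hq v, hq v'] at h1
    linear_combination h1
  have h0 : ∀ v ∈ LinearMap.ker y₁ ⊓ LinearMap.ker y₂, ∀ v', T P v v' = 0 := by
    intro v hv v'
    have h1 := hpol v v'
    have hv1 : y₁ v = 0 := hv.1
    have hv2 : y₂ v = 0 := hv.2
    rw [hv1, hv2, zero_mul, mul_zero, add_zero] at h1
    exact (mul_eq_zero.1 h1).resolve_left two_ne_zero
  set e : Fin 6 → V := ![P, f₁, f₂, z₁, z₂, z₃] with he
  have hW : ∀ i : Fin 6, i ≠ 1 → i ≠ 2 → e i ∈ LinearMap.ker y₁ ⊓ LinearMap.ker y₂ := by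
    intro i h1 h2
    fin_cases i
    · exact hPW
    · exact absurd rfl h1
    · exact absurd rfl h2
    · exact hz₁W
    · exact hz₂W
    · exact hz₃
  have hsorted : ∀ a b c : Fin 6, a ≤ b → b ≤ c → T (e a) (e b) (e c) ≠ 0 →
      24 ≤ wt a + wt b + wt c := by
    intro a b c hab hbc hne
    by_contra hlt
    apply hne
    by_cases ha : a = 0
    · subst ha
      change T P (e b) (e c) = 0
      rcases wt0 b c hlt with h | h
      · exact h0 _ (hW b h.1 h.2) _
      · rw [hT.s23]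
        exact h0 _ (hW c h.1 h.2) _
    · obtain ⟨h3, h4, hc1, hc2⟩ := wt1 a b c ha hab hbc hlt
      subst h3
      have hc := hW c hc1 hc2
      change T z₁ (e b) (e c) = 0
      rcases h4 with h | h
      · subst h
        exact hK z₁ hz₁ z₁ (hK21 hz₁) _ hc
      · subst h
        exact hK z₁ hz₁ z₂ hz₂ _ hc
  refine ⟨e, wt, 24, ?_⟩
  refine ⟨?_, rfl, by decide, rfl, by decide, by decide, ?_, ?_, ?_, ?_, ?_⟩
  · rw [Fintype.linearIndependent_iff]
    intro g hg
    simp only [Fin.sum_univ_succ, Fin.sum_univ_zero, add_zero] at hg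
    have hg' : g 0 • P + (g 1 • f₁ + (g 2 • f₂ + (g 3 • z₁ + (g 4 • z₂ + g 5 • z₃)))) = 0 := hg
    have hP1 : y₁ P = 0 := hPW.1
    have hP2 : y₂ P = 0 := hPW.2
    have h11 : y₁ z₁ = 0 := hz₁W.1
    have h12 : y₂ z₁ = 0 := hz₁W.2
    have h21 : y₁ z₂ = 0 := hz₂W.1
    have h22 : y₂ z₂ = 0 := hz₂W.2
    have h31 : y₁ z₃ = 0 := hz₃.1
    have h32 : y₂ z₃ = 0 := hz₃.2
    have hg1 : g 1 = 0 := by
      have := congrArg y₁ hg'
      simpa [hP1, h11, h21, h31, hf11, hf21] using this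
    have hg2 : g 2 = 0 := by
      have := congrArg y₂ hg'
      simpa [hP2, h12, h22, h32, hf12, hf22] using this
    rw [hg1, hg2, zero_smul, zero_smul, zero_add, zero_add] at hg'
    have hg5 : g 5 = 0 := by
      by_contra hne
      apply hz₃'
      have : z₃ = -((g 5)⁻¹ * g 0) • P + (-((g 5)⁻¹ * g 3) • z₁ + -((g 5)⁻¹ * g 4) • z₂) := by
        have h5 := congrArg (fun v => (g 5)⁻¹ • v) hg'
        simp only [smul_add, smul_smul, smul_zero, inv_mul_cancel₀ hne, one_smul] at h5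
        rw [neg_smul, neg_smul, neg_smul]
        rw [← sub_eq_zero, ← h5]
        abel
      rw [this]
      refine add_mem (smul_mem _ _ (subset_span (by simp))) (add_mem
        (smul_mem _ _ (subset_span (by simp))) (smul_mem _ _ (subset_span (by simp))))
    rw [hg5, zero_smul, add_zero] at hg'
    have hg4 : g 4 = 0 := by
      by_contra hne
      apply hz₂'
      have : z₂ = -((g 4)⁻¹ * g 0) • P + (-((g 4)⁻¹ * g 3) • z₁) := by
        have h5 := congrArg (fun v => (g 4)⁻¹ • v) hg'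
        simp only [smul_add, smul_smul, smul_zero, inv_mul_cancel₀ hne, one_smul] at h5
        rw [neg_smul, neg_smul]
        rw [← sub_eq_zero, ← h5]
        abel
      rw [this]
      refine add_mem (smul_mem _ _ (subset_span (by simp)))
        (smul_mem _ _ (subset_span (by simp)))
    rw [hg4, zero_smul, add_zero] at hg'
    have hg3 : g 3 = 0 := by
      by_contra hne
      apply hz₁'
      have : z₁ = -((g 3)⁻¹ * g 0) • P := by
        have h5 := congrArg (fun v => (g 3)⁻¹ • v) hg'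
        simp only [smul_add, smul_smul, smul_zero, inv_mul_cancel₀ hne, one_smul] at h5
        rw [neg_smul]
        rw [← sub_eq_zero, ← h5]
        abel
      rw [this]
      exact smul_mem _ _ (subset_span (by simp))
    rw [hg3, zero_smul, add_zero] at hg'
    have hg0 : g 0 = 0 := (smul_eq_zero.1 hg').resolve_right hP0
    intro i
    fin_cases i
    · exact hg0
    · exact hg1
    · exact hg2
    · exact hg3
    · exact hg4
    · exact hg5
  · intro a
    exact hPP _
  · change T P f₁ f₁ = 0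
    rw [hq, hf12, mul_zero]
  · change T P f₂ f₂ = 0
    rw [hq, hf21, zero_mul]
  · change T P f₁ f₂ ≠ 0
    intro h
    have := hpol f₁ f₂
    rw [h, hf11, hf22, hf21, zero_mul, add_zero, mul_zero, mul_one] at this
    exact zero_ne_one this
  · intro a b c h
    rcases le_total a b with hab | hab
    · rcases le_total b c with hbc | hbc
      · exact hsorted a b c hab hbc h
      · rcases le_total a c with hac | hac
        · have := hsorted a c b hac hbc (by rwa [hT.s23])
          omega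
        · have := hsorted c a b hac hab (by rwa [hT.s12, hT.s23])
          omega
    · rcases le_total a c with hac | hac
      · have := hsorted b a c hab hac (by rwa [hT.s12])
        omega
      · rcases le_total b c with hbc | hbc
        · have := hsorted b c a hbc hac (by rwa [hT.s23, hT.s12])
          omega
        · have := hsorted c b a hbc hab (by rwa [hT.s12, hT.s23, hT.s12])
          omega
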